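import Pool.Agent.Q20.BX.Bxp

/-!
# The equivariant Beilinson conjecture: twists and commuting complex conjugations

Two statements on Beilinson's equality, both granted for the linear characters which are unramified at all finite places.
-/

set_option autoImplicit false

namespace Pool.Agent.Q280.SP.BX

open NumberField Pool.Agent.Q20.RS.RL
open Pool.Agent.Q20.RS (FinExt Fn)
open Pool.Agent.Q20.RS.BK (Motivic)
open Pool.Agent.Q20.RS.RL.BX (BEq)

/-- Beilinson's equality holds for all linear characters `ψ` of the groups `Gal(K̄/F)`, `F` finite over `K`, which are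
unramified at all finite places. -/
def Unramified (K : Type) [Field K] [NumberField K] (k : ℕ) (H : Motivic K k) : Prop :=
  ∀ (F : Pool.Agent.Q20.RS.Sub K) (ψ : Lin F), FinExt F → ψ.smooth → ψ.unram → BEq H ψ.fn

/-- Granted for the unramified linear characters, the equality holds for `ψη` if and only if it holds for `ψ`, for every
twister `η` of `ψ`; over totally real fields every linear character `ψ` has a twister `η` such that `ψη` takes the value
`(-1)^k` at the complex conjugations, and the equality holds for `ψ` if and only if it holds for `ψη`. -/
def TwistEquality (K : Type) [Field K] [NumberField K] (k : ℕ) (H : Motivic K k) : Prop :=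
  Unramified K k H →
    (∀ (F : Pool.Agent.Q20.RS.Sub K) (ψ η : Lin F), FinExt F → ψ.smooth → Twister ψ η →
      (BEq H (ψ.mul η).fn ↔ BEq H ψ.fn)) ∧
    ∀ (F : Pool.Agent.Q20.RS.Sub K) (ψ : Lin F), FinExt F → TotReal F → ψ.smooth →
      ∃ η : Lin F, Twister ψ η ∧ (ψ.mul η).parity ((-1) ^ k) ∧ (BEq H ψ.fn ↔ BEq H (ψ.mul η).fn)

/-- Granted for the unramified linear characters and for the linear characters over totally real fields with the value
`(-1)^k` at the complex conjugations, the equality holds for all linear characters over totally real fields `F` and for all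
characters over totally real fields of representations in which the complex conjugations commute. -/
def RealEquality (K : Type) [Field K] [NumberField K] (k : ℕ) (H : Motivic K k) : Prop :=
  Unramified K k H →
    (∀ (F : Pool.Agent.Q20.RS.Sub K) (ψ : Lin F), FinExt F → TotReal F → ψ.smooth → ψ.parity ((-1) ^ k) → BEq H ψ.fn) →
    (∀ (F : Pool.Agent.Q20.RS.Sub K) (ψ : Lin F), FinExt F → TotReal F → ψ.smooth → BEq H ψ.fn) ∧
    ∀ (F : Pool.Agent.Q20.RS.Sub K) (χ : Fn F), FinExt F → TotReal F → CharCC χ → BEq H χ

theorem twistEquality {K : Type} [Field K] [NumberField K] {k : ℕ} (H : Motivic K k) :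
    TwistEquality K k H := fun hu =>
  ⟨(BX.beilinson H hu).1, (BX.beilinson H hu).2.1⟩

theorem realEquality {K : Type} [Field K] [NumberField K] {k : ℕ} (H : Motivic K k) :
    RealEquality K k H := fun hu => (BX.beilinson H hu).2.2

end Pool.Agent.Q280.SP.BX
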